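import Pool.Agent.H57.Gab5

set_option autoImplicit false

namespace Pool.Agent.Results.MP_aa6dd4_lc.Gabidulin

open Finset Pool.Agent.H57.Gab

/-- Q2 holds: for every extension `F` of the finite field `Fq` of degree at least `n`, every zero
pattern satisfying the intersection condition is realised by a generator matrix of some
Gabidulin code of length `n` and dimension `k` over `F`. -/
theorem result (Fq F : Type) [Field Fq] [Fintype Fq] [Field F] [Fintype F] [Algebra Fq F]
    (n k : ℕ) (hk : 1 ≤ k) (hkn : k ≤ n) (hm : n ≤ Module.finrank Fq F)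
    (Z : Fin k → Finset (Fin n))
    (hZ : ∀ Ω : Finset (Fin k), Ω.Nonempty →
      (univ.filter fun j : Fin n => ∀ i ∈ Ω, j ∈ Z i).card + Ω.card ≤ k) :
    ∃ g : Fin n → F, LinearIndependent Fq g ∧
      ∃ G : Matrix (Fin k) (Fin n) F, (∀ i, ∀ j ∈ Z i, G i j = 0) ∧
        LinearIndependent F (fun i => G i) ∧
        (Submodule.span F (Set.range fun i => G i) : Set (Fin n → F)) =
          {c | ∃ f : Fin k → F, ∀ j, c j = ∑ t, f t * g j ^ Fintype.card Fq ^ (t : ℕ)} := by
  obtain ⟨r, hn⟩ : ∃ r, n = k + r := ⟨n - k, by omega⟩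
  obtain ⟨h, hh, c, hc, hc'⟩ := dual_form (Fq := Fq) (F := F) hn hk hm (fun i => (Z i)ᶜ) (by
    intro Ω hΩ
    have h1 := hZ Ω hΩ
    have h2 : (Ω.biUnion fun i => (Z i)ᶜ) = (univ.filter fun j : Fin n => ∀ i ∈ Ω, j ∈ Z i)ᶜ := by
      ext j
      simp
    have h3 : (univ.filter fun j : Fin n => ∀ i ∈ Ω, j ∈ Z i).card ≤ n := by
      simpa using card_le_univ (univ.filter fun j : Fin n => ∀ i ∈ Ω, j ∈ Z i)
    rw [h2, card_compl, Fintype.card_fin]
    omega)
  obtain ⟨g, hg, hg'⟩ := dual_params hn hk hh
  refine ⟨g, hg, c, fun i j hj => (hc i).1 j (by simpa using hj), hc', ?_⟩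
  set v : Fin k → Fin n → F := fun t j => g j ^ Fintype.card Fq ^ (t : ℕ) with hv
  set J : Fin k → Fin n := Fin.castLE hkn with hJ
  have hJ1 : Function.Injective J := Fin.castLE_injective _
  let N : Submodule F (Fin n → F) :=
    { carrier := {x | ∀ s < r, ∑ j, x j * h j ^ Fintype.card Fq ^ s = 0}
      add_mem' := by
        intro x y hx hy s hs
        simp only [Pi.add_apply, add_mul, sum_add_distrib]
        rw [hx s hs, hy s hs, add_zero]
      zero_mem' := by
        intro s _
        simp
      smul_mem' := by
        intro a x hx s hs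
        simp only [Pi.smul_apply, smul_eq_mul, mul_assoc, ← mul_sum]
        rw [hx s hs, mul_zero] }
  have hN : Module.finrank F N ≤ k := by
    have := LinearMap.finrank_le_finrank_of_injective
      (f := (LinearMap.funLeft F F J).comp N.subtype) (by
        rw [← LinearMap.ker_eq_bot, LinearMap.ker_eq_bot']
        intro x hx
        apply Subtype.ext
        refine moore (Fq := Fq) r h hh (univ.image J)ᶜ ?_ _ ?_ x.2
        · rw [card_compl, card_image_of_injective _ hJ1]
          simp
          omega
        · intro j hj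
          simp only [mem_compl, not_not, mem_image, mem_univ, true_and] at hj
          obtain ⟨i, rfl⟩ := hj
          exact congrFun hx i)
    simpa using this
  have hfull : ∀ w : Fin k → Fin n → F, LinearIndependent F w → (∀ i, w i ∈ N) →
      Submodule.span F (Set.range w) = N := by
    intro w hw hw'
    apply Submodule.eq_of_le_of_finrank_le
    · rw [Submodule.span_le]
      rintro _ ⟨i, rfl⟩
      exact hw' i
    · rw [finrank_span_eq_card hw]
      simpa using hN
  have hvli : LinearIndependent F v := by
    set M : Matrix (Fin k) (Fin k) F := Matrix.of fun t i => v t (J i) with hM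
    have hdet : M.det ≠ 0 := by
      intro h0
      obtain ⟨x, hx0, hx⟩ := Matrix.exists_mulVec_eq_zero_iff.mpr h0
      apply hx0
      refine moore (Fq := Fq) k (g ∘ J) (hg.comp J hJ1) univ (by simp) x (by simp) ?_
      intro s hs
      have := congrFun hx ⟨s, hs⟩
      simp only [Matrix.mulVec, dotProduct, hM, Matrix.of_apply, hv, Pi.zero_apply] at this
      rw [← this]
      exact sum_congr rfl fun i _ => mul_comm _ _
    rw [Fintype.linearIndependent_iff]
    intro f hf
    by_contra hne
    apply hdet
    refine Matrix.exists_vecMul_eq_zero_iff.mp ⟨f, fun h0 => hne (congrFun h0), ?_⟩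
    funext i
    have := congrFun hf (J i)
    simpa [Matrix.vecMul, dotProduct, hM, Finset.sum_apply] using this
  rw [hfull c hc' (fun i => (hc i).2), ← hfull v hvli (fun t => hg' t t.2)]
  ext x
  simp only [SetLike.mem_coe, Submodule.mem_span_range_iff_exists_fun, Set.mem_setOf_eq]
  refine exists_congr fun f => ?_
  rw [eq_comm, funext_iff]
  simp [Finset.sum_apply, hv]

end Pool.Agent.Results.MP_aa6dd4_lc.Gabidulin
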